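import Pool.Agent.H541.LL.Plane

set_option autoImplicit false

/-!
# Sequences with the Fibonacci recurrence and without primes: full Hausdorff dimension
-/

namespace Pool.Agent.Results.MP_5893d7_nt.CompositeFullDimension

open Filter Pool.Agent.H541.LL
open scoped ENNReal NNReal

/-- the sequence with the Fibonacci recurrence and the real initial values `v = (v.1, v.2)` -/
def T (v : ℝ × ℝ) : ℕ → ℝ
  | 0 => v.1
  | 1 => v.2
  | n + 2 => T v (n + 1) + T v n

/-- composite integers -/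
def Comp (m : ℤ) : Prop := 1 < m.natAbs ∧ ¬ m.natAbs.Prime

/-- the values of the affine forms along the sequence -/
noncomputable def val (f : ℝ × ℝ × ℝ) (v : ℝ × ℝ) (n : ℕ) : ℤ :=
  ⌊f.1 * T v n + f.2.1 * T v (n + 1) + f.2.2⌋

/-- coordinates -/
noncomputable def Ps (w : ℝ × ℝ) : ℝ × ℝ :=
  (w.1 + w.2, w.1 * Real.goldenRatio + w.2 * Real.goldenConj)

lemma T_eq (w : ℝ × ℝ) (n : ℕ) :
    T (Ps w) n = w.1 * Real.goldenRatio ^ n + w.2 * Real.goldenConj ^ n := by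
  induction n using Nat.twoStepInduction with
  | zero => simp [T, Ps]
  | one => simp [T, Ps]
  | more n h1 h2 =>
    rw [T, h1, h2]
    have e1 : Real.goldenRatio ^ (n + 2) = Real.goldenRatio ^ n * (Real.goldenRatio + 1) := by
      rw [pow_add, Real.goldenRatio_sq]
    have e2 : Real.goldenConj ^ (n + 2) = Real.goldenConj ^ n * (Real.goldenConj + 1) := by
      rw [pow_add, Real.goldenConj_sq]
    rw [e1, e2]
    ring

lemma Ps_cont : Continuous Ps := by
  unfold Ps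
  fun_prop

lemma Ps_surj (v : ℝ × ℝ) : ∃ w, Ps w = v := by
  have h5 : √5 ≠ 0 := by positivity
  have h : Real.goldenRatio - Real.goldenConj = √5 := Real.goldenRatio_sub_goldenConj
  refine ⟨((v.2 - Real.goldenConj * v.1) / √5, (Real.goldenRatio * v.1 - v.2) / √5), ?_⟩
  unfold Ps
  ext
  · simp only
    field_simp
    rw [← h]
    ring
  · simp only
    field_simp
    rw [← h]
    ring

/-- the value of the form in the coordinates -/
lemma form_eq (f : ℝ × ℝ × ℝ) (w : ℝ × ℝ) (n : ℕ) :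
    f.1 * T (Ps w) n + f.2.1 * T (Ps w) (n + 1) + f.2.2 =
      w.1 * (f.1 + f.2.1 * Real.goldenRatio) * Real.goldenRatio ^ n +
        w.2 * (f.1 + f.2.1 * Real.goldenConj) * Real.goldenConj ^ n + f.2.2 := by
  rw [T_eq, T_eq]
  ring

/-- growth -/
lemma growth (f : ℝ × ℝ × ℝ) (hf : 0 < f.1 + f.2.1 * Real.goldenRatio) (w : ℝ × ℝ) (hw : w.1 ≠ 0)
    (z : ℕ) : ∀ᶠ n in atTop, z < (val f (Ps w) n).natAbs := by
  have h1 : Tendsto (fun n : ℕ => |w.1| * (f.1 + f.2.1 * Real.goldenRatio) * Real.goldenRatio ^ n)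
      atTop atTop := by
    apply Tendsto.const_mul_atTop
    · have := abs_pos.2 hw
      positivity
    · exact tendsto_pow_atTop_atTop_of_one_lt Real.one_lt_goldenRatio
  filter_upwards [h1.eventually_gt_atTop
    (z + 1 + (|w.2 * (f.1 + f.2.1 * Real.goldenConj)| + |f.2.2|))] with n hn
  have h2 : |Real.goldenConj ^ n| ≤ 1 := by
    rw [abs_pow]
    apply pow_le_one₀ (abs_nonneg _)
    rw [abs_le]
    exact ⟨Real.neg_one_lt_goldenConj.le, by linarith [Real.goldenConj_neg]⟩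
  set X : ℝ := f.1 * T (Ps w) n + f.2.1 * T (Ps w) (n + 1) + f.2.2 with hX
  have h3 : |w.1| * (f.1 + f.2.1 * Real.goldenRatio) * Real.goldenRatio ^ n ≤ |X| +
      (|w.2 * (f.1 + f.2.1 * Real.goldenConj)| + |f.2.2|) := by
    have e1 : |w.1| * (f.1 + f.2.1 * Real.goldenRatio) * Real.goldenRatio ^ n =
        |w.1 * (f.1 + f.2.1 * Real.goldenRatio) * Real.goldenRatio ^ n| := by
      rw [abs_mul, abs_mul, abs_of_pos hf, abs_of_pos (pow_pos Real.goldenRatio_pos n)]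
    have e2 : w.1 * (f.1 + f.2.1 * Real.goldenRatio) * Real.goldenRatio ^ n =
        X - (w.2 * (f.1 + f.2.1 * Real.goldenConj) * Real.goldenConj ^ n + f.2.2) := by
      rw [hX, form_eq]
      ring
    rw [e1, e2]
    have e3 := abs_sub X (w.2 * (f.1 + f.2.1 * Real.goldenConj) * Real.goldenConj ^ n + f.2.2)
    have e4 := abs_add_le (w.2 * (f.1 + f.2.1 * Real.goldenConj) * Real.goldenConj ^ n) f.2.2
    have e5 : |w.2 * (f.1 + f.2.1 * Real.goldenConj) * Real.goldenConj ^ n| ≤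
        |w.2 * (f.1 + f.2.1 * Real.goldenConj)| := by
      rw [abs_mul]
      calc |w.2 * (f.1 + f.2.1 * Real.goldenConj)| * |Real.goldenConj ^ n|
          ≤ |w.2 * (f.1 + f.2.1 * Real.goldenConj)| * 1 := by gcongr
        _ = _ := mul_one _
    linarith
  have h4 : (z : ℝ) + 1 < |X| := by linarith
  have h5 : |X| ≤ |((⌊X⌋ : ℤ) : ℝ)| + 1 := by
    have h6 : |X - ⌊X⌋| ≤ 1 := by
      rw [abs_of_nonneg (sub_nonneg.2 (Int.floor_le X))]
      have := Int.lt_floor_add_one X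
      linarith
    have h7 := abs_sub_abs_le_abs_sub X (⌊X⌋ : ℝ)
    linarith
  have h8 : (z : ℝ) < |((⌊X⌋ : ℤ) : ℝ)| := by linarith
  have h9 : ((⌊X⌋.natAbs : ℕ) : ℝ) = |((⌊X⌋ : ℤ) : ℝ)| := by
    rw [Nat.cast_natAbs]
    push_cast
    rfl
  rw [← h9] at h8
  exact_mod_cast h8

/-- a small box in the coordinates -/
lemma box (O : Set (ℝ × ℝ)) (hO : IsOpen O) (hne : O.Nonempty) :
    ∃ b c δ : ℝ, 0 < δ ∧ ∀ θ ∈ Set.Icc (0 : ℝ) 1, ∀ τ ∈ Set.Icc (0 : ℝ) 1,
      b + δ * θ ≠ 0 ∧ Ps (b + δ * θ, c + δ * τ) ∈ O := by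
  obtain ⟨v, hv⟩ := hne
  obtain ⟨w, hw⟩ := Ps_surj v
  have hO' : IsOpen (Ps ⁻¹' O) := hO.preimage Ps_cont
  have hwO : w ∈ Ps ⁻¹' O := by
    rw [Set.mem_preimage, hw]
    exact hv
  obtain ⟨ε, hε, hball⟩ := Metric.isOpen_iff.1 hO' w hwO
  have hmem : ∀ x y : ℝ, |x - w.1| < ε → |y - w.2| < ε → Ps (x, y) ∈ O := by
    intro x y hx hy
    apply hball
    rw [Metric.mem_ball, Prod.dist_eq, max_lt_iff]
    exact ⟨hx, hy⟩
  rcases le_or_gt 0 w.1 with h | h
  · refine ⟨w.1 + ε / 4, w.2, ε / 4, by positivity, fun θ hθ τ hτ => ⟨?_, ?_⟩⟩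
    · have : 0 ≤ ε / 4 * θ := mul_nonneg (by positivity) hθ.1
      have h2 : 0 < w.1 + ε / 4 + ε / 4 * θ := by linarith
      exact h2.ne'
    · have h1 : 0 ≤ ε / 4 * θ := mul_nonneg (by positivity) hθ.1
      have h2 : ε / 4 * θ ≤ ε / 4 := by nlinarith [hθ.2]
      have h3 : 0 ≤ ε / 4 * τ := mul_nonneg (by positivity) hτ.1
      have h4 : ε / 4 * τ ≤ ε / 4 := by nlinarith [hτ.2]
      apply hmem
      · rw [abs_lt]
        constructor <;> linarith
      · rw [abs_lt]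
        constructor <;> linarith
  · refine ⟨w.1 - ε / 2, w.2, ε / 4, by positivity, fun θ hθ τ hτ => ⟨?_, ?_⟩⟩
    · have h2 : ε / 4 * θ ≤ ε / 4 := by nlinarith [hθ.2]
      have h3 : w.1 - ε / 2 + ε / 4 * θ < 0 := by linarith
      exact h3.ne
    · have h1 : 0 ≤ ε / 4 * θ := mul_nonneg (by positivity) hθ.1
      have h2 : ε / 4 * θ ≤ ε / 4 := by nlinarith [hθ.2]
      have h3 : 0 ≤ ε / 4 * τ := mul_nonneg (by positivity) hτ.1
      have h4 : ε / 4 * τ ≤ ε / 4 := by nlinarith [hτ.2]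
      apply hmem
      · rw [abs_lt]
        constructor <;> linarith
      · rw [abs_lt]
        constructor <;> linarith

/-- the affine coordinates of the box -/
noncomputable def Bx (b c δ : ℝ) (u : ℝ × ℝ) : ℝ × ℝ := Ps (b + δ * u.1, c + δ * u.2)

lemma Bx_anti (b c δ : ℝ) (hδ : 0 < δ) : AntilipschitzWith (Real.toNNReal (2 / δ)) (Bx b c δ) := by
  apply AntilipschitzWith.of_le_mul_dist
  intro u v
  rw [Real.coe_toNNReal _ (by positivity)]
  have h5 : (2 : ℝ) < √5 := by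
    rw [Real.lt_sqrt (by norm_num)]
    norm_num
  have hφ : Real.goldenRatio - Real.goldenConj = √5 := Real.goldenRatio_sub_goldenConj
  have hφ2 := Real.goldenRatio_lt_two
  have hφ1 := Real.one_lt_goldenRatio
  have hψ1 := Real.neg_one_lt_goldenConj
  have hψ2 := Real.goldenConj_neg
  set D := dist (Bx b c δ u) (Bx b c δ v) with hD
  have h1 : |(Bx b c δ u).1 - (Bx b c δ v).1| ≤ D := by
    rw [hD, Prod.dist_eq]
    exact le_max_left _ _
  have h2 : |(Bx b c δ u).2 - (Bx b c δ v).2| ≤ D := by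
    rw [hD, Prod.dist_eq]
    exact le_max_right _ _
  set X := (Bx b c δ u).1 - (Bx b c δ v).1 with hX
  set Y := (Bx b c δ u).2 - (Bx b c δ v).2 with hY
  have hD0 : 0 ≤ D := dist_nonneg
  have e1 : √5 * (δ * (u.1 - v.1)) = Y - Real.goldenConj * X := by
    rw [hX, hY, ← hφ]
    unfold Bx Ps
    simp only
    ring
  have e2 : √5 * (δ * (u.2 - v.2)) = Real.goldenRatio * X - Y := by
    rw [hX, hY, ← hφ]
    unfold Bx Ps
    simp only
    ring
  obtain ⟨h1a, h1b⟩ := abs_le.1 h1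
  obtain ⟨h2a, h2b⟩ := abs_le.1 h2
  have f1 : |√5 * (δ * (u.1 - v.1))| ≤ 2 * D := by
    rw [e1, abs_le]
    constructor <;> nlinarith
  have f2 : |√5 * (δ * (u.2 - v.2))| ≤ 3 * D := by
    rw [e2, abs_le]
    constructor <;> nlinarith
  rw [abs_mul, abs_of_pos (by positivity : (0 : ℝ) < √5), abs_mul, abs_of_pos hδ] at f1 f2
  have g1 : |u.1 - v.1| ≤ 2 / δ * D := by
    rw [div_mul_eq_mul_div, le_div_iff₀ hδ]
    have : 0 ≤ δ * |u.1 - v.1| := by positivity
    nlinarith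
  have g2 : |u.2 - v.2| ≤ 2 / δ * D := by
    rw [div_mul_eq_mul_div, le_div_iff₀ hδ]
    have : 0 ≤ δ * |u.2 - v.2| := by positivity
    nlinarith
  rw [Prod.dist_eq]
  exact max_le g1 g2

/-- at most two powers of the golden ratio lie in `(x, 2 x]` -/
lemma two_powers (a x : ℝ) (ha : 0 < a) (hx : 0 < x) :
    ∃ n0 : ℕ, ∀ n, x < a * Real.goldenRatio ^ n → a * Real.goldenRatio ^ n ≤ 2 * x →
      n = n0 ∨ n = n0 + 1 := by
  classical
  have hex : ∃ n : ℕ, x < a * Real.goldenRatio ^ n := by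
    obtain ⟨n, hn⟩ := pow_unbounded_of_one_lt (x / a) Real.one_lt_goldenRatio
    refine ⟨n, ?_⟩
    rw [div_lt_iff₀ ha] at hn
    linarith
  refine ⟨Nat.find hex, fun n hn1 hn2 => ?_⟩
  have h1 : Nat.find hex ≤ n := Nat.find_min' hex hn1
  have h2 := Nat.find_spec hex
  by_contra hcon
  push Not at hcon
  have h3 : Nat.find hex + 2 ≤ n := by omega
  have h4 : Real.goldenRatio ^ (Nat.find hex + 2) ≤ Real.goldenRatio ^ n :=
    pow_le_pow_right₀ Real.one_lt_goldenRatio.le h3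
  have h5 : a * Real.goldenRatio ^ (Nat.find hex + 2) =
      a * Real.goldenRatio ^ (Nat.find hex) * (Real.goldenRatio + 1) := by
    rw [pow_add, Real.goldenRatio_sq]
    ring
  have h6 := Real.one_lt_goldenRatio
  have h7 : a * Real.goldenRatio ^ (Nat.find hex + 2) ≤ a * Real.goldenRatio ^ n := by gcongr
  nlinarith

/-- the set of the theorem -/
def Good (F : Finset (ℝ × ℝ × ℝ)) (O : Set (ℝ × ℝ)) : Set (ℝ × ℝ) :=
  {v | v ∈ O ∧ ∃ z : ℕ, ∀ᶠ n in atTop, ∀ f ∈ F, Comp (val f v n) ∧ (val f v n).natAbs.minFac ≤ z}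

lemma lower (F : Finset (ℝ × ℝ × ℝ)) (hF : ∀ f ∈ F, 0 < f.1 + f.2.1 * Real.goldenRatio)
    (O : Set (ℝ × ℝ)) (hO : IsOpen O) (hne : O.Nonempty) (d : ℝ≥0) (hd0 : 0 < d) (hd1 : d < 1) :
    ((1 + d : ℝ≥0) : ℝ≥0∞) ≤ dimH (Good F O) := by
  classical
  obtain ⟨b, c, δ, hδ, hbox⟩ := box O hO hne
  obtain ⟨Q, T0, hQ, hT0, hcont⟩ := content_uniform (2 * F.card + 1) (by omega) d (by exact_mod_cast hd0)
    (by exact_mod_cast hd1)
  set lam : ℕ × {f // f ∈ F} → ℝ := fun i => δ * (i.2.1.1 + i.2.1.2.1 * Real.goldenRatio) *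
    Real.goldenRatio ^ i.1 with hlam
  have hlam' : ∀ f : {f // f ∈ F}, 0 < δ * (f.1.1 + f.1.2.1 * Real.goldenRatio) := fun f =>
    mul_pos hδ (hF f.1 f.2)
  set cc : ℝ → ℕ × {f // f ∈ F} → ℝ := fun τ i => b * (i.2.1.1 + i.2.1.2.1 * Real.goldenRatio) *
    Real.goldenRatio ^ i.1 + (c + δ * τ) * (i.2.1.1 + i.2.1.2.1 * Real.goldenConj) *
    Real.goldenConj ^ i.1 + i.2.1.2.2 with hcc
  have hmult : ∀ x : ℝ, 0 < x → ∃ G : Finset (ℕ × {f // f ∈ F}), G.card ≤ 2 * F.card + 1 ∧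
      ∀ n, x < lam n → lam n ≤ 2 * x → n ∈ G := by
    intro x hx
    have hch : ∀ f : {f // f ∈ F}, ∃ n0 : ℕ, ∀ n, x < δ * (f.1.1 + f.1.2.1 * Real.goldenRatio) *
        Real.goldenRatio ^ n → δ * (f.1.1 + f.1.2.1 * Real.goldenRatio) * Real.goldenRatio ^ n ≤ 2 * x →
        n = n0 ∨ n = n0 + 1 := fun f => two_powers _ x (hlam' f) hx
    choose n0 hn0 using hch
    refine ⟨(F.attach ×ˢ Finset.range 2).image (fun p => (n0 p.1 + p.2, p.1)), ?_, ?_⟩
    · refine Finset.card_image_le.trans ?_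
      rw [Finset.card_product, Finset.card_attach, Finset.card_range]
      omega
    · rintro ⟨n, f⟩ h1 h2
      rw [Finset.mem_image]
      rcases hn0 f n h1 h2 with h | h
      · exact ⟨(f, 0), by simp, by simp [h]⟩
      · exact ⟨(f, 1), by simp, by simp [h]⟩
  set S : Set (ℝ × ℝ) := {u | u.1 ∈ Set.Icc (0 : ℝ) 1 ∧ u.2 ∈ Set.Icc (0 : ℝ) 1 ∧
    ∀ n, T0 ≤ lam n → ∃ p ∈ Q, (p : ℤ) ∣ ⌊u.1 * lam n + cc u.2 n⌋} with hS
  have hdimS : ((1 + d : ℝ≥0) : ℝ≥0∞) ≤ dimH S := by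
    apply le_dimH_of_content (1 + d) (by positivity) (1 / 12 : ℝ≥0∞) (by norm_num)
    intro V hV
    have := slices (d : ℝ) (by exact_mod_cast hd0) (1 / 12 : ℝ≥0∞) S (by
      intro B hB W hW
      apply hcont _ lam (cc B) hmult W
      refine Set.Subset.trans ?_ hW
      intro θ hθ
      exact ⟨hθ.1, hB, hθ.2⟩) V hV
    simpa using this
  have hsub : (Bx b c δ) '' S ⊆ Good F O := by
    rintro _ ⟨u, ⟨hu1, hu2, hu3⟩, rfl⟩
    obtain ⟨hb0, hbO⟩ := hbox u.1 hu1 u.2 hu2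
    refine ⟨hbO, Q.sup id, ?_⟩
    rw [Filter.eventually_all_finset]
    intro f hf
    have h1 := growth f (hF f hf) (b + δ * u.1, c + δ * u.2) hb0 (Q.sup id)
    have h2 : Tendsto (fun n : ℕ => δ * (f.1 + f.2.1 * Real.goldenRatio) * Real.goldenRatio ^ n)
        atTop atTop := by
      apply Tendsto.const_mul_atTop (hlam' ⟨f, hf⟩)
      exact tendsto_pow_atTop_atTop_of_one_lt Real.one_lt_goldenRatio
    filter_upwards [h1, h2.eventually_ge_atTop T0] with n h3 h4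
    obtain ⟨p, hp, hpd⟩ := hu3 (n, ⟨f, hf⟩) h4
    have h5 : ⌊u.1 * lam (n, ⟨f, hf⟩) + cc u.2 (n, ⟨f, hf⟩)⌋ = val f (Bx b c δ u) n := by
      unfold val Bx
      rw [form_eq]
      congr 1
      simp only [hlam, hcc]
      ring
    rw [h5] at hpd
    have hpz : p ≤ Q.sup id := Finset.le_sup (f := id) hp
    have hpd' : p ∣ (val f (Bx b c δ u) n).natAbs := by
      rw [← Int.natCast_dvd]
      exact hpd
    have h3' : Q.sup id < (val f (Bx b c δ u) n).natAbs := h3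
    have hp2 := (hQ p hp).two_le
    refine ⟨⟨by omega, ?_⟩, ?_⟩
    · intro hpr
      rcases (Nat.dvd_prime hpr).1 hpd' with h6 | h6
      · omega
      · omega
    · exact (Nat.minFac_le_of_dvd hp2 hpd').trans hpz
  calc ((1 + d : ℝ≥0) : ℝ≥0∞) ≤ dimH S := hdimS
    _ ≤ dimH ((Bx b c δ) '' S) := (Bx_anti b c δ hδ).le_dimH_image S
    _ ≤ dimH (Good F O) := dimH_mono hsub

/-- **Real sequences with the Fibonacci recurrence and without primes.**

For real initial values `v = (v.1, v.2)` let `T v` be the sequence with `T v (n + 2) = T v (n + 1) + T v n`.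
Let `F` be a finite set of affine forms `a x + b y + e` (with `a + b φ > 0`). In every nonempty open set `O` of
initial values the set of all `v` such that for all large `n` and ALL forms of `F` the integers
`⌊a T v n + b T v (n + 1) + e⌋` are composite, and even have a bounded least prime factor (bounded in terms of
`v` only), has full Hausdorff dimension `2`. -/
theorem result (F : Finset (ℝ × ℝ × ℝ)) (hF : ∀ f ∈ F, 0 < f.1 + f.2.1 * Real.goldenRatio)
    (O : Set (ℝ × ℝ)) (hO : IsOpen O) (hne : O.Nonempty) :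
    dimH {v : ℝ × ℝ | v ∈ O ∧ ∃ z : ℕ, ∀ᶠ n in atTop, ∀ f ∈ F,
      Comp ⌊f.1 * T v n + f.2.1 * T v (n + 1) + f.2.2⌋ ∧
        ⌊f.1 * T v n + f.2.1 * T v (n + 1) + f.2.2⌋.natAbs.minFac ≤ z} = 2 := by
  have h1 : {v : ℝ × ℝ | v ∈ O ∧ ∃ z : ℕ, ∀ᶠ n in atTop, ∀ f ∈ F,
      Comp ⌊f.1 * T v n + f.2.1 * T v (n + 1) + f.2.2⌋ ∧
        ⌊f.1 * T v n + f.2.1 * T v (n + 1) + f.2.2⌋.natAbs.minFac ≤ z} = Good F O := rfl
  rw [h1]
  apply le_antisymm
  · calc dimH (Good F O) ≤ dimH (Set.univ : Set (ℝ × ℝ)) := dimH_mono (Set.subset_univ _)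
      _ = 2 := by
        rw [Real.dimH_univ_eq_finrank]
        simp
  · apply le_of_forall_lt
    intro r hr
    rcases lt_or_ge r 1 with h | h
    · refine lt_of_lt_of_le h ?_
      refine le_trans ?_ (lower F hF O hO hne (1 / 2) (by norm_num) (by
        rw [div_lt_one (by norm_num)]
        norm_num))
      push_cast
      exact le_self_add
    · -- `r = 1 + e`
      have hr' : r ≠ ∞ := ne_top_of_lt hr
      lift r to ℝ≥0 using hr' with q
      have hq2 : q < 2 := by exact_mod_cast hr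
      have hq1 : 1 ≤ q := by exact_mod_cast h
      obtain ⟨d, hd1, hd2⟩ := exists_between (show q - 1 < 1 by
        rw [tsub_lt_iff_left hq1]
        norm_num
        exact hq2)
      have hlt : (q : ℝ≥0∞) < ((1 + d : ℝ≥0) : ℝ≥0∞) := by
        rw [ENNReal.coe_lt_coe]
        rw [tsub_lt_iff_left hq1] at hd1
        exact hd1
      exact lt_of_lt_of_le hlt (lower F hF O hO hne d (lt_of_le_of_lt bot_le hd1) hd2)

end Pool.Agent.Results.MP_5893d7_nt.CompositeFullDimension
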