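import Pool.Agent.H541.FF.Prim
import Pool.Agent.H541.FF.UIrr

set_option autoImplicit false

/-!
# Primes in the Fibonacci sequences over finite fields

For an element `Q` of a commutative ring `K` let `U Q n` be the Lucas sequence with the parameters `(X, Q)` in
the polynomial ring `K[X]`: `U 0 = 0`, `U 1 = 1`, `U (n + 2) = X U (n + 1) - Q U n`.
For `Q = -1` these are the Fibonacci polynomials, whose values at `1` (over the integers) are the Fibonacci
numbers. The analogue of the first question for a finite field `K` is the question whether the sequence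
`U Q n` contains infinitely many primes (irreducible polynomials) of the ring `K[X]`.

We prove that there is a finite set `E` of primes such that for ALL finite fields `K` of a characteristic
outside `E` and ALL `Q` in `K` there are infinitely many irreducible polynomials among the `U Q n` if and
only if `Q` is not a square in `K`; so for the Fibonacci polynomials if and only if `|K| ≡ 3 (mod 4)`.
Moreover, the indices can be chosen simultaneously for any finite number of such fields and all their
nonsquares `Q`, and in narrow arithmetic progressions of primes of any length.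

Proof: a criterion of irreducibility in terms of the order of `|K|` modulo `n` (known for `Q = -1`), and a
theorem of the type of Gupta, Murty and Heath-Brown for primitive roots modulo the primes of narrow
arithmetic progressions (the library theorem `Pool.Agent.Q84.AR.engine`), applied to primes
`n ≡ 3 (mod 4)` such that `n - 1` has no small odd prime factor.
-/

namespace Pool.Agent.Results.MP_5893d7_nt.FibonacciPolynomials

open Polynomial Pool.Agent.H541.FF

/-- the values at `1` -/
lemma values (n : ℕ) : (U (-1 : ℤ) n).eval 1 = Nat.fib n := by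
  induction n using Nat.twoStepInduction with
  | zero => simp
  | one => simp
  | more n h1 h2 =>
    rw [U_succ, Nat.fib_add_two]
    simp only [eval_sub, eval_mul, eval_X, eval_C, h1, h2]
    push_cast
    ring

/-- the order of the cardinality -/
lemma order_card (n l m : ℕ) (hn4 : n % 4 = 3)
    (hm : ∀ q : ℕ, q.Prime → 3 ≤ q → q ≤ m → ¬ q ∣ n - 1) (hm0 : m ≠ 0)
    (hl : (n - 1) / 2 ∣ orderOf ((l : ℕ) : ZMod n)) :
    (n - 1) / 2 ∣ orderOf (((l ^ m : ℕ) : ℕ) : ZMod n) := by
  have h1 : ((l : ℕ) : ZMod n) ^ (m * orderOf (((l ^ m : ℕ) : ℕ) : ZMod n)) = 1 := by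
    rw [pow_mul]
    have := pow_orderOf_eq_one (((l ^ m : ℕ) : ℕ) : ZMod n)
    push_cast at this ⊢
    exact this
  have h2 := hl.trans (orderOf_dvd_of_pow_eq_one h1)
  refine Nat.Coprime.dvd_of_dvd_mul_left ?_ h2
  rw [Nat.coprime_comm]
  apply Nat.Coprime.symm
  apply Nat.coprime_of_dvd
  intro q hq hqn hqm
  have h3 : q ≤ m := Nat.le_of_dvd (by omega) hqm
  have h4 : q ∣ n - 1 := by
    have : n - 1 = (n - 1) / 2 * 2 := by omega
    rw [this]
    exact hqn.mul_right 2
  by_cases hq3 : 3 ≤ q
  · exact hm q hq hq3 h3 h4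
  · have hq2 : q = 2 := by have := hq.two_le; omega
    subst hq2
    omega

/-- irreducibility at good indices -/
lemma irr_of (F : Finset ℕ) (B n : ℕ) (hn : n.Prime) (hn4 : n % 4 = 3)
    (hB : ∀ q : ℕ, q.Prime → 3 ≤ q → q ≤ B → ¬ q ∣ n - 1)
    (hF : ∀ l ∈ F, ((l : ℕ) : ZMod n) ≠ 0 ∧ (n - 1) / 2 ∣ orderOf ((l : ℕ) : ZMod n))
    (K : Type) [Field K] [Finite K] (hKF : ringChar K ∈ F) (hKB : Nat.card K ≤ B) (Q : K)
    (hQ : ¬ IsSquare Q) : Irreducible (U Q n) := by
  classical
  have := Fintype.ofFinite K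
  have hp : (ringChar K).Prime := CharP.char_is_prime K _
  obtain ⟨m, -, hm⟩ := FiniteField.card K (ringChar K)
  have hm' : Nat.card K = ringChar K ^ (m : ℕ) := by rw [← Fintype.card_eq_nat_card, hm]
  have hmB : (m : ℕ) ≤ B := by
    have h1 : (m : ℕ) < ringChar K ^ (m : ℕ) := Nat.lt_pow_self hp.one_lt
    omega
  obtain ⟨h1, h2⟩ := hF _ hKF
  have hnK : (n : K) ≠ 0 := by
    intro h
    have h3 : ringChar K ∣ n := (ringChar.spec K n).1 h
    rcases (Nat.dvd_prime hn).1 h3 with h4 | h4
    · exact hp.one_lt.ne' h4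
    · apply h1
      rw [h4, ZMod.natCast_self]
  rw [U_iff Q n (by omega) hnK]
  refine ⟨hQ, hn, hn4, ?_⟩
  rw [hm']
  exact order_card n _ m hn4 (fun q hq hq3 hqm => hB q hq hq3 (hqm.trans hmB)) m.pos.ne' h2

/-- **Primes in the Fibonacci sequences over finite fields.**

(0) For `Q = -1` the values at `1` of the integer polynomials are the Fibonacci numbers.
There is a finite set `E` of primes with the following properties.
(1) For every finite set `F` of primes outside `E`, every `B` and `k` there are infinitely many arithmetic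
progressions of `k` primes `n = a, a + d, …, a + (k - 1) d` with `d ≤ (log a) ^ D` such that for all these `n`,
ALL finite fields `K` of a characteristic in `F` with at most `B` elements and ALL nonsquares `Q` in `K` the
polynomial `U Q n` is irreducible.
(2) So for all finite fields `K` of a characteristic outside `E` infinitely many `U Q n` are irreducible if and
only if `Q` is not a square in `K`; for `Q = -1`, the Fibonacci polynomials, if and only if
`|K| ≡ 3 (mod 4)`. -/
theorem result :
    (∀ n : ℕ, (U (-1 : ℤ) n).eval 1 = Nat.fib n) ∧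
    ∃ E : Finset ℕ,
      (∀ (F : Finset ℕ) (B : ℕ), (∀ l ∈ F, l.Prime ∧ l ∉ E) → ∀ k : ℕ, ∃ D : ℕ, ∀ A : ℕ, ∃ a d : ℕ,
        A ≤ a ∧ 0 < d ∧ (d : ℝ) ≤ Real.log a ^ D ∧ ∀ j < k, (a + j * d).Prime ∧
          ∀ (K : Type) [Field K] [Finite K], ringChar K ∈ F → Nat.card K ≤ B →
            ∀ Q : K, ¬ IsSquare Q → Irreducible (U Q (a + j * d))) ∧
      (∀ (K : Type) [Field K] [Finite K], ringChar K ∉ E →
        (∀ Q : K, {n : ℕ | Irreducible (U Q n)}.Infinite ↔ ¬ IsSquare Q) ∧
        ({n : ℕ | Irreducible (U (-1 : K) n)}.Infinite ↔ Nat.card K % 4 = 3)) := by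
  refine ⟨values, ?_⟩
  obtain ⟨E, hE⟩ := prim
  have h3 : ∀ (F : Finset ℕ) (B : ℕ), (∀ l ∈ F, l.Prime ∧ l ∉ E) → ∀ k : ℕ, ∃ D : ℕ, ∀ A : ℕ, ∃ a d : ℕ,
      A ≤ a ∧ 0 < d ∧ (d : ℝ) ≤ Real.log a ^ D ∧ ∀ j < k, (a + j * d).Prime ∧
        ∀ (K : Type) [Field K] [Finite K], ringChar K ∈ F → Nat.card K ≤ B →
          ∀ Q : K, ¬ IsSquare Q → Irreducible (U Q (a + j * d)) := by
    intro F B hF k
    obtain ⟨D, hD⟩ := hE F B hF k
    refine ⟨D, fun A => ?_⟩
    obtain ⟨a, d, h1, h2, h3, h4⟩ := hD A
    refine ⟨a, d, h1, h2, h3, fun j hj => ?_⟩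
    obtain ⟨-, h5, h6, h7, h8⟩ := h4 j hj
    exact ⟨h5, fun K _ _ hK hKB Q hQ => irr_of F B _ h5 h6 h7 h8 K hK hKB Q hQ⟩
  have h4 : ∀ (K : Type) [Field K] [Finite K], ringChar K ∉ E →
      ∀ Q : K, {n : ℕ | Irreducible (U Q n)}.Infinite ↔ ¬ IsSquare Q := by
    intro K _ _ hK Q
    constructor
    · intro h hQ
      obtain ⟨n, hn, hn3⟩ := h.exists_gt 2
      exact U_sq Q n hn3 hQ hn
    · intro hQ
      have hp : (ringChar K).Prime := CharP.char_is_prime K _
      obtain ⟨D, hD⟩ := h3 {ringChar K} (Nat.card K) (by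
        intro l hl
        rw [Finset.mem_singleton] at hl
        subst hl
        exact ⟨hp, hK⟩) 1
      apply Set.infinite_of_not_bddAbove
      rintro ⟨M, hM⟩
      obtain ⟨a, d, h5, -, -, h6⟩ := hD (M + 1)
      have h7 := (h6 0 (by norm_num)).2 K (Finset.mem_singleton_self _) le_rfl Q hQ
      rw [zero_mul, add_zero] at h7
      have h8 := hM h7
      omega
  refine ⟨E, h3, fun K _ _ hK => ⟨h4 K hK, ?_⟩⟩
  rw [h4 K hK]
  classical
  have := Fintype.ofFinite K
  rw [FiniteField.isSquare_neg_one_iff, Fintype.card_eq_nat_card]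
  tauto

end Pool.Agent.Results.MP_5893d7_nt.FibonacciPolynomials
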