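import Pool.Agent.H541.RP.Fam4
import Pool.Graph.R_pool_sql_team_seeded_b0a926ef.R500.FB.Fib

set_option autoImplicit false

/-!
# Real sequences with the Fibonacci recurrence at prime indices: two large prime factors

For real initial values `v` let `T v` be the sequence with `T v (n + 2) = T v (n + 1) + T v n`. The
Fibonacci numbers are `T (0, 1)`, the Lucas numbers `T (2, 1)`. For a prime `p > 5` all prime factors of
these two numbers with index `p` are larger than `p`, so for other initial values we consider the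
`p`-rough part of the integer part of `T v p`. For almost all initial values this rough part is prime
for infinitely many `p`. We prove that in every nonempty open set of initial values the set of the `v`
for which this happens only finitely often has full Hausdorff dimension two, simultaneously for all
affine forms of a given countable set (for instance for the sequence `T v n` and its companion
`T v (n + 1) + T v (n - 1)`), and that moreover for every `A` the values have two prime factors larger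
than `p ^ A` for all large primes `p`.
-/

namespace Pool.Agent.Results.MP_5893d7_nt.LargeFactorsFullDimension

open Filter Topology
open scoped ENNReal NNReal

/-- the sequence with the Fibonacci recurrence and the real initial values `v = (v.1, v.2)` -/
def T (v : ℝ × ℝ) : ℕ → ℝ
  | 0 => v.1
  | 1 => v.2
  | n + 2 => T v (n + 1) + T v n

/-- the Lucas numbers -/
def Lu : ℕ → ℕ
  | 0 => 2
  | 1 => 1
  | n + 2 => Lu (n + 1) + Lu n

/-- the values of the affine forms along the sequence -/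
noncomputable def val (f : ℝ × ℝ × ℝ) (v : ℝ × ℝ) (n : ℕ) : ℤ :=
  ⌊f.1 * T v n + f.2.1 * T v (n + 1) + f.2.2⌋

/-- `m` is divisible by a product of two (not necessarily distinct) primes larger than `B` -/
def TwoLarge (B : ℕ) (m : ℤ) : Prop :=
  ∃ q r : ℕ, q.Prime ∧ r.Prime ∧ B < q ∧ B < r ∧ ((q * r : ℕ) : ℤ) ∣ m

/-- The product, with multiplicity, of the prime factors of `m` that are larger than `p`. -/
def roughPart (p m : ℕ) : ℕ := (m.primeFactorsList.filter (fun r => p < r)).prod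

lemma not_prime_of_two {p : ℕ} {m : ℤ} (h : TwoLarge p m) : ¬ (roughPart p m.natAbs).Prime := by
  obtain ⟨q, r, hq, hr, hpq, hpr, hd⟩ := h
  intro hP
  rw [Int.natCast_dvd] at hd
  rcases Nat.eq_zero_or_pos m.natAbs with h0 | h0
  · rw [h0] at hP
    unfold roughPart at hP
    simp at hP
    exact Nat.not_prime_one hP
  have h1 : (q * r).primeFactorsList.Sublist m.natAbs.primeFactorsList :=
    Nat.primeFactorsList_sublist_of_dvd hd h0.ne'
  have h2 := h1.filter (fun x => decide (p < x))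
  have hperm := Nat.perm_primeFactorsList_mul hq.ne_zero hr.ne_zero
  rw [Nat.primeFactorsList_prime hq, Nat.primeFactorsList_prime hr] at hperm
  have h3 : ((q * r).primeFactorsList.filter (fun x => decide (p < x))).length = 2 := by
    rw [(hperm.filter _).length_eq]
    simp [hpq, hpr]
  have h4 := h2.length_le
  rw [h3] at h4
  unfold roughPart at hP
  have hall : ∀ x ∈ m.natAbs.primeFactorsList.filter (fun r => decide (p < r)), 2 ≤ x := by
    intro x hx
    rw [List.mem_filter] at hx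
    exact (Nat.prime_of_mem_primeFactorsList hx.1).two_le
  rcases hl : m.natAbs.primeFactorsList.filter (fun r => decide (p < r)) with _ | ⟨x, _ | ⟨y, t⟩⟩
  · rw [hl] at h4
    simp at h4
  · rw [hl] at h4
    simp at h4
  · rw [hl] at hP hall
    rw [List.prod_cons, List.prod_cons] at hP
    have hx := hall x (by simp)
    have hy := hall y (by simp)
    have ht : 1 ≤ t.prod := by
      rw [Nat.one_le_iff_ne_zero]
      intro h5
      rw [List.prod_eq_zero_iff] at h5
      have := hall 0 (by simp [h5])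
      omega
    refine Nat.not_prime_mul (by omega) ?_ hP
    have : 2 * 1 ≤ y * t.prod := Nat.mul_le_mul hy ht
    omega

/-- coordinates -/
noncomputable def Ps (w : ℝ × ℝ) : ℝ × ℝ :=
  (w.1 + w.2, w.1 * Real.goldenRatio + w.2 * Real.goldenConj)

lemma T_eq (w : ℝ × ℝ) (n : ℕ) :
    T (Ps w) n = w.1 * Real.goldenRatio ^ n + w.2 * Real.goldenConj ^ n := by
  induction n using Nat.twoStepInduction with
  | zero => simp [T, Ps]
  | one => simp [T, Ps]
  | more n h1 h2 =>
    rw [T, h1, h2]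
    have e1 : Real.goldenRatio ^ (n + 2) = Real.goldenRatio ^ n * (Real.goldenRatio + 1) := by
      rw [pow_add, Real.goldenRatio_sq]
    have e2 : Real.goldenConj ^ (n + 2) = Real.goldenConj ^ n * (Real.goldenConj + 1) := by
      rw [pow_add, Real.goldenConj_sq]
    rw [e1, e2]
    ring

lemma Ps_cont : Continuous Ps := by
  unfold Ps
  fun_prop

lemma Ps_surj (v : ℝ × ℝ) : ∃ w, Ps w = v := by
  have h5 : √5 ≠ 0 := by positivity
  have h : Real.goldenRatio - Real.goldenConj = √5 := Real.goldenRatio_sub_goldenConj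
  refine ⟨((v.2 - Real.goldenConj * v.1) / √5, (Real.goldenRatio * v.1 - v.2) / √5), ?_⟩
  unfold Ps
  ext
  · simp only
    field_simp
    rw [← h]
    ring
  · simp only
    field_simp
    rw [← h]
    ring

/-- the value of the form in the coordinates -/
lemma form_eq (f : ℝ × ℝ × ℝ) (w : ℝ × ℝ) (n : ℕ) :
    f.1 * T (Ps w) n + f.2.1 * T (Ps w) (n + 1) + f.2.2 =
      w.1 * (f.1 + f.2.1 * Real.goldenRatio) * Real.goldenRatio ^ n +
        w.2 * (f.1 + f.2.1 * Real.goldenConj) * Real.goldenConj ^ n + f.2.2 := by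
  rw [T_eq, T_eq]
  ring

/-- a small box in the coordinates -/
lemma box (O : Set (ℝ × ℝ)) (hO : IsOpen O) (hne : O.Nonempty) :
    ∃ b c δ : ℝ, 0 < δ ∧ ∀ θ ∈ Set.Icc (0 : ℝ) 1, ∀ τ ∈ Set.Icc (0 : ℝ) 1,
      b + δ * θ ≠ 0 ∧ Ps (b + δ * θ, c + δ * τ) ∈ O := by
  obtain ⟨v, hv⟩ := hne
  obtain ⟨w, hw⟩ := Ps_surj v
  have hO' : IsOpen (Ps ⁻¹' O) := hO.preimage Ps_cont
  have hwO : w ∈ Ps ⁻¹' O := by
    rw [Set.mem_preimage, hw]
    exact hv
  obtain ⟨ε, hε, hball⟩ := Metric.isOpen_iff.1 hO' w hwO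
  have hmem : ∀ x y : ℝ, |x - w.1| < ε → |y - w.2| < ε → Ps (x, y) ∈ O := by
    intro x y hx hy
    apply hball
    rw [Metric.mem_ball, Prod.dist_eq, max_lt_iff]
    exact ⟨hx, hy⟩
  rcases le_or_gt 0 w.1 with h | h
  · refine ⟨w.1 + ε / 4, w.2, ε / 4, by positivity, fun θ hθ τ hτ => ⟨?_, ?_⟩⟩
    · have : 0 ≤ ε / 4 * θ := mul_nonneg (by positivity) hθ.1
      have h2 : 0 < w.1 + ε / 4 + ε / 4 * θ := by linarith
      exact h2.ne'
    · have h1 : 0 ≤ ε / 4 * θ := mul_nonneg (by positivity) hθ.1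
      have h2 : ε / 4 * θ ≤ ε / 4 := by nlinarith [hθ.2]
      have h3 : 0 ≤ ε / 4 * τ := mul_nonneg (by positivity) hτ.1
      have h4 : ε / 4 * τ ≤ ε / 4 := by nlinarith [hτ.2]
      apply hmem
      · rw [abs_lt]
        constructor <;> linarith
      · rw [abs_lt]
        constructor <;> linarith
  · refine ⟨w.1 - ε / 2, w.2, ε / 4, by positivity, fun θ hθ τ hτ => ⟨?_, ?_⟩⟩
    · have h2 : ε / 4 * θ ≤ ε / 4 := by nlinarith [hθ.2]
      have h3 : w.1 - ε / 2 + ε / 4 * θ < 0 := by linarith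
      exact h3.ne
    · have h1 : 0 ≤ ε / 4 * θ := mul_nonneg (by positivity) hθ.1
      have h2 : ε / 4 * θ ≤ ε / 4 := by nlinarith [hθ.2]
      have h3 : 0 ≤ ε / 4 * τ := mul_nonneg (by positivity) hτ.1
      have h4 : ε / 4 * τ ≤ ε / 4 := by nlinarith [hτ.2]
      apply hmem
      · rw [abs_lt]
        constructor <;> linarith
      · rw [abs_lt]
        constructor <;> linarith

/-- the affine coordinates of the box -/
noncomputable def Bx (b c δ : ℝ) (u : ℝ × ℝ) : ℝ × ℝ := Ps (b + δ * u.1, c + δ * u.2)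

lemma Bx_anti (b c δ : ℝ) (hδ : 0 < δ) : AntilipschitzWith (Real.toNNReal (2 / δ)) (Bx b c δ) := by
  apply AntilipschitzWith.of_le_mul_dist
  intro u v
  rw [Real.coe_toNNReal _ (by positivity)]
  have h5 : (2 : ℝ) < √5 := by
    rw [Real.lt_sqrt (by norm_num)]
    norm_num
  have hφ : Real.goldenRatio - Real.goldenConj = √5 := Real.goldenRatio_sub_goldenConj
  have hφ2 := Real.goldenRatio_lt_two
  have hφ1 := Real.one_lt_goldenRatio
  have hψ1 := Real.neg_one_lt_goldenConj
  have hψ2 := Real.goldenConj_neg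
  set D := dist (Bx b c δ u) (Bx b c δ v) with hD
  have h1 : |(Bx b c δ u).1 - (Bx b c δ v).1| ≤ D := by
    rw [hD, Prod.dist_eq]
    exact le_max_left _ _
  have h2 : |(Bx b c δ u).2 - (Bx b c δ v).2| ≤ D := by
    rw [hD, Prod.dist_eq]
    exact le_max_right _ _
  set X := (Bx b c δ u).1 - (Bx b c δ v).1 with hX
  set Y := (Bx b c δ u).2 - (Bx b c δ v).2 with hY
  have hD0 : 0 ≤ D := dist_nonneg
  have e1 : √5 * (δ * (u.1 - v.1)) = Y - Real.goldenConj * X := by
    rw [hX, hY, ← hφ]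
    unfold Bx Ps
    simp only
    ring
  have e2 : √5 * (δ * (u.2 - v.2)) = Real.goldenRatio * X - Y := by
    rw [hX, hY, ← hφ]
    unfold Bx Ps
    simp only
    ring
  obtain ⟨h1a, h1b⟩ := abs_le.1 h1
  obtain ⟨h2a, h2b⟩ := abs_le.1 h2
  have f1 : |√5 * (δ * (u.1 - v.1))| ≤ 2 * D := by
    rw [e1, abs_le]
    constructor <;> nlinarith
  have f2 : |√5 * (δ * (u.2 - v.2))| ≤ 3 * D := by
    rw [e2, abs_le]
    constructor <;> nlinarith
  rw [abs_mul, abs_of_pos (by positivity : (0 : ℝ) < √5), abs_mul, abs_of_pos hδ] at f1 f2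
  have g1 : |u.1 - v.1| ≤ 2 / δ * D := by
    rw [div_mul_eq_mul_div, le_div_iff₀ hδ]
    have : 0 ≤ δ * |u.1 - v.1| := by positivity
    nlinarith
  have g2 : |u.2 - v.2| ≤ 2 / δ * D := by
    rw [div_mul_eq_mul_div, le_div_iff₀ hδ]
    have : 0 ≤ δ * |u.2 - v.2| := by positivity
    nlinarith
  rw [Prod.dist_eq]
  exact max_le g1 g2

lemma T_fib (n : ℕ) : T (0, 1) n = Nat.fib n := by
  induction n using Nat.twoStepInduction with
  | zero => simp [T]
  | one => simp [T]
  | more n h1 h2 =>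
    rw [T, h1, h2, Nat.fib_add_two]
    push_cast
    ring

lemma T_luc (n : ℕ) : T (2, 1) n = Lu n := by
  induction n using Nat.twoStepInduction with
  | zero => simp [T, Lu]
  | one => simp [T, Lu]
  | more n h1 h2 =>
    rw [T, h1, h2, Lu]
    push_cast
    ring

lemma Lu_eq (n : ℕ) : Lu n = Pool.Agent.R500.FB.L n := by
  induction n using Nat.twoStepInduction with
  | zero => rfl
  | one => rfl
  | more n h1 h2 =>
    show Lu (n + 1) + Lu n = Pool.Agent.R500.FB.L (n + 1) + Pool.Agent.R500.FB.L n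
    rw [h1, h2]

lemma rough_fib (p : ℕ) (hp : p.Prime) (h5 : 5 < p) : roughPart p (Nat.fib p) = Nat.fib p := by
  have h := Pool.Agent.R500.FB.W_fib hp h5
  unfold Pool.Agent.R500.FB.W at h
  rw [Pool.Agent.R500.FB.T_fib, Nat.floor_natCast] at h
  exact h

lemma rough_luc (p : ℕ) (hp : p.Prime) (h5 : 5 < p) : roughPart p (Lu p) = Lu p := by
  have h := Pool.Agent.R500.FB.W_luc hp h5
  unfold Pool.Agent.R500.FB.W at h
  rw [Pool.Agent.R500.FB.T_luc, Nat.floor_natCast, ← Lu_eq] at h
  exact h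

/-- the set of the theorem -/
def Good (F : Set (ℝ × ℝ × ℝ)) (O : Set (ℝ × ℝ)) : Set (ℝ × ℝ) :=
  {v | v ∈ O ∧ ∀ f ∈ F, {p : ℕ | p.Prime ∧ (roughPart p (val f v p).natAbs).Prime}.Finite ∧
    ∀ A : ℕ, ∀ᶠ p : ℕ in atTop, p.Prime → TwoLarge (p ^ A) (val f v p)}

lemma lower (F : Set (ℝ × ℝ × ℝ)) (hFc : F.Countable)
    (hF : ∀ f ∈ F, 0 < f.1 + f.2.1 * Real.goldenRatio)
    (O : Set (ℝ × ℝ)) (hO : IsOpen O) (hne : O.Nonempty) (d : ℝ≥0) (hd0 : 0 < d) (hd1 : d < 1) :
    ((1 + d : ℝ≥0) : ℝ≥0∞) ≤ dimH (Good F O) := by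
  have : Countable F := hFc.to_subtype
  obtain ⟨b, c, δ, hδ, hbox⟩ := box O hO hne
  have hlam' : ∀ f : F, 0 < δ * (f.1.1 + f.1.2.1 * Real.goldenRatio) := fun f =>
    mul_pos hδ (hF f.1 f.2)
  have key := Pool.Agent.H541.RP.plane_dim (J := F)
    (fun f => δ * (f.1.1 + f.1.2.1 * Real.goldenRatio)) (fun _ => Real.goldenRatio) hlam'
    (fun _ => Real.one_lt_goldenRatio)
    (fun τ f n => b * (f.1.1 + f.1.2.1 * Real.goldenRatio) * Real.goldenRatio ^ n +
      (c + δ * τ) * (f.1.1 + f.1.2.1 * Real.goldenConj) * Real.goldenConj ^ n + f.1.2.2) d hd0 hd1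
  set S : Set (ℝ × ℝ) := {u : ℝ × ℝ | u.1 ∈ Set.Icc (0 : ℝ) 1 ∧ u.2 ∈ Set.Icc (0 : ℝ) 1 ∧
      ∀ f : F, ∀ᶠ p : ℕ in atTop, p.Prime → Pool.Agent.H541.RP.Dv1
        (δ * (f.1.1 + f.1.2.1 * Real.goldenRatio)) Real.goldenRatio
        (fun n => b * (f.1.1 + f.1.2.1 * Real.goldenRatio) * Real.goldenRatio ^ n +
      (c + δ * u.2) * (f.1.1 + f.1.2.1 * Real.goldenConj) * Real.goldenConj ^ n + f.1.2.2) u.1 p} with hS
  have hsub : (Bx b c δ) '' S ⊆ Good F O := by
    rintro _ ⟨u, ⟨hu1, hu2, hu3⟩, rfl⟩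
    obtain ⟨hb0, hbO⟩ := hbox u.1 hu1 u.2 hu2
    refine ⟨hbO, fun f hf => ?_⟩
    have hval : ∀ p : ℕ, val f (Bx b c δ u) p =
        ⌊u.1 * (δ * (f.1 + f.2.1 * Real.goldenRatio) * Real.goldenRatio ^ p) +
        (b * (f.1 + f.2.1 * Real.goldenRatio) * Real.goldenRatio ^ p +
        (c + δ * u.2) * (f.1 + f.2.1 * Real.goldenConj) * Real.goldenConj ^ p + f.2.2)⌋ := by
      intro p
      unfold val Bx
      rw [form_eq]
      congr 1
      simp only
      ring
    have hff := hF f hf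
    set g := f.1 + f.2.1 * Real.goldenRatio with hg
    set w1 := b + δ * u.1 with hw1
    have hw1' : 0 < |w1| := abs_pos.2 hb0
    have hall : ∀ A : ℕ, ∀ᶠ p : ℕ in atTop, p.Prime → TwoLarge (p ^ A) (val f (Bx b c δ u) p) := by
      intro A
      simp only [hval]
      apply Pool.Agent.H541.RP.dv1_two (δ * g) Real.goldenRatio (mul_pos hδ hff)
        Real.one_lt_goldenRatio _ u.1 (|w1| * g / 2) (by positivity) _ A (hu3 ⟨f, hf⟩)
      -- growth
      have h1 : Tendsto (fun n : ℕ => |w1| * g / 2 * Real.goldenRatio ^ n) atTop atTop := by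
        apply Tendsto.const_mul_atTop (by positivity)
        exact tendsto_pow_atTop_atTop_of_one_lt Real.one_lt_goldenRatio
      filter_upwards [h1.eventually_ge_atTop
        (|(c + δ * u.2) * (f.1 + f.2.1 * Real.goldenConj)| + |f.2.2|)] with n hn
      have h2 : |Real.goldenConj ^ n| ≤ 1 := by
        rw [abs_pow]
        apply pow_le_one₀ (abs_nonneg _)
        rw [abs_le]
        exact ⟨Real.neg_one_lt_goldenConj.le, by linarith [Real.goldenConj_neg]⟩
      set X : ℝ := u.1 * (δ * g * Real.goldenRatio ^ n) + (b * g * Real.goldenRatio ^ n +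
        (c + δ * u.2) * (f.1 + f.2.1 * Real.goldenConj) * Real.goldenConj ^ n + f.2.2) with hX
      have e1 : |w1| * g * Real.goldenRatio ^ n = |w1 * g * Real.goldenRatio ^ n| := by
        rw [abs_mul, abs_mul, abs_of_pos hff, abs_of_pos (pow_pos Real.goldenRatio_pos n)]
      have e2 : w1 * g * Real.goldenRatio ^ n =
          X - ((c + δ * u.2) * (f.1 + f.2.1 * Real.goldenConj) * Real.goldenConj ^ n + f.2.2) := by
        rw [hX, hw1]
        ring
      have e3 := abs_sub X ((c + δ * u.2) * (f.1 + f.2.1 * Real.goldenConj) * Real.goldenConj ^ n + f.2.2)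
      have e4 := abs_add_le ((c + δ * u.2) * (f.1 + f.2.1 * Real.goldenConj) * Real.goldenConj ^ n) f.2.2
      have e5 : |(c + δ * u.2) * (f.1 + f.2.1 * Real.goldenConj) * Real.goldenConj ^ n| ≤
          |(c + δ * u.2) * (f.1 + f.2.1 * Real.goldenConj)| := by
        rw [abs_mul]
        calc |(c + δ * u.2) * (f.1 + f.2.1 * Real.goldenConj)| * |Real.goldenConj ^ n|
            ≤ |(c + δ * u.2) * (f.1 + f.2.1 * Real.goldenConj)| * 1 := by gcongr
          _ = _ := mul_one _
      have e6 : |w1| * g * Real.goldenRatio ^ n ≤ |X| + (|(c + δ * u.2) *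
          (f.1 + f.2.1 * Real.goldenConj)| + |f.2.2|) := by
        rw [e1, e2]
        linarith
      have e7 : |w1| * g * Real.goldenRatio ^ n = 2 * (|w1| * g / 2 * Real.goldenRatio ^ n) := by ring
      linarith
    refine ⟨?_, hall⟩
    obtain ⟨m, hm⟩ := eventually_atTop.1 (hall 1)
    refine (Set.finite_lt_nat m).subset ?_
    rintro p ⟨hp1, hp2⟩
    rw [Set.mem_ofPred_eq]
    by_contra hcon
    push Not at hcon
    have h4 := hm p hcon hp1
    rw [pow_one] at h4
    exact not_prime_of_two h4 hp2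
  calc ((1 + d : ℝ≥0) : ℝ≥0∞) ≤ dimH S := key
    _ ≤ dimH ((Bx b c δ) '' S) := (Bx_anti b c δ hδ).le_dimH_image S
    _ ≤ dimH (Good F O) := dimH_mono hsub

/-- **Two large prime factors at all large prime indices: full Hausdorff dimension.** -/
theorem result :
    (∀ n : ℕ, T (0, 1) n = Nat.fib n ∧ T (2, 1) n = Lu n) ∧
    (∀ p : ℕ, p.Prime → 5 < p → roughPart p (Nat.fib p) = Nat.fib p ∧ roughPart p (Lu p) = Lu p) ∧
    (∀ F : Set (ℝ × ℝ × ℝ), F.Countable → (∀ f ∈ F, 0 < f.1 + f.2.1 * Real.goldenRatio) →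
      ∀ O : Set (ℝ × ℝ), IsOpen O → O.Nonempty →
      dimH {v : ℝ × ℝ | v ∈ O ∧ ∀ f ∈ F,
        {p : ℕ | p.Prime ∧ (roughPart p (val f v p).natAbs).Prime}.Finite ∧
        ∀ A : ℕ, ∀ᶠ p : ℕ in atTop, p.Prime → TwoLarge (p ^ A) (val f v p)} = 2) := by
  refine ⟨fun n => ⟨T_fib n, T_luc n⟩, fun p hp h5 => ⟨rough_fib p hp h5, rough_luc p hp h5⟩,
    fun F hFc hF O hO hne => ?_⟩
  change dimH (Good F O) = 2
  apply le_antisymm
  · calc dimH (Good F O) ≤ dimH (Set.univ : Set (ℝ × ℝ)) := dimH_mono (Set.subset_univ _)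
      _ = 2 := by
        rw [Real.dimH_univ_eq_finrank]
        simp
  · apply le_of_forall_lt
    intro r hr
    rcases lt_or_ge r 1 with h | h
    · refine lt_of_lt_of_le h ?_
      refine le_trans ?_ (lower F hFc hF O hO hne (1 / 2) (by norm_num) (by
        rw [div_lt_one (by norm_num)]
        norm_num))
      push_cast
      exact le_self_add
    · have hr' : r ≠ ∞ := ne_top_of_lt hr
      lift r to ℝ≥0 using hr' with q
      have hq2 : q < 2 := by exact_mod_cast hr
      have hq1 : 1 ≤ q := by exact_mod_cast h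
      obtain ⟨d, hd1, hd2⟩ := exists_between (show q - 1 < 1 by
        rw [tsub_lt_iff_left hq1]
        norm_num
        exact hq2)
      have hlt : (q : ℝ≥0∞) < ((1 + d : ℝ≥0) : ℝ≥0∞) := by
        rw [ENNReal.coe_lt_coe]
        rw [tsub_lt_iff_left hq1] at hd1
        exact hd1
      exact lt_of_lt_of_le hlt (lower F hFc hF O hO hne d (lt_of_le_of_lt bot_le hd1) hd2)

end Pool.Agent.Results.MP_5893d7_nt.LargeFactorsFullDimension
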